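import Pool.Agent.helper59.FI.SpecB2

set_option autoImplicit false

/-!
# Project fi (MP_baa4d7_al), block A2, row FUS
-/

namespace Pool.Agent.FI

open Pool.Agent.helper58.DC Pool.Agent.DI Pool.Agent.GR Pool.Agent.OB

theorem FUS (hCNJ : CNJ_stmt) : FUS_stmt := by
  intro p M hS G _ _ D x θ χ hR P hP g hPg ψ hψ hθψ h2
  have hψ' : funMap (MulAut.conj g) ψ ∈ IrrOn (cz (cj g P)) := by
    rw [cj_cz]; exact IrrOn_funMap hψ g
  have h3 : SB M (cz (cj g P)) (funMap (MulAut.conj g) θ) (funMap (MulAut.conj g) ψ) := by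
    rw [cj_cz]; exact SB_conj hθψ g
  have hθ1 : funMap (MulAut.conj g) θ ∈ IrrOn (cz (cj g D)) := by
    rw [cj_cz]; exact IrrOn_funMap hR.th g
  obtain ⟨l, hl, h4, h5⟩ := hCNJ p M hS G D x θ χ hR (cj g P) hPg _ hψ' h2 (cj g D)
    (cj_pgroup g hR.dfa.pgrp) (cj_mono hP) (card_cj g D) _ hθ1 h3
  refine ⟨l, hl, ?_⟩
  have h6 : cj (l * g) D = D := by rw [cj_mul]; exact h4
  refine ⟨cj_nz.1 h6, ?_⟩
  rw [funMap_mul]
  exact h5

end Pool.Agent.FI
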