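import Pool.Agent.helper83.FI.SpecR

set_option autoImplicit false

/-!
# Project fi (MP_baa4d7_al), block R, row IDB
-/

namespace Pool.Agent.FI

open Pool.Agent.helper58.DC Pool.Agent.DI Pool.Agent.GR Pool.Agent.OB

section IDB_alg

variable {R : Type} [CommRing R] (I : Ideal R)

open Polynomial in
theorem IDB_cop1 (hI : ∀ x : R, x ∉ I → IsUnit x) (a : R) (ha : a ∈ I) (t : Multiset R)
    (ht : ∀ b ∈ t, b ∉ I) : IsCoprime (X - C a) (t.map (fun b => (X - C b : R[X]))).prod := by
  induction t using Multiset.induction_on with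
  | empty => simpa using isCoprime_one_right
  | cons b t ih =>
    rw [Multiset.map_cons, Multiset.prod_cons]
    refine IsCoprime.mul_right ?_ (ih fun c hc => ht c (Multiset.mem_cons_of_mem hc))
    apply Polynomial.isCoprime_X_sub_C_of_isUnit_sub
    apply hI
    intro h
    apply ht b (Multiset.mem_cons_self b t)
    have := I.sub_mem ha h
    simpa using this

open Polynomial in
theorem IDB_cop (hI : ∀ x : R, x ∉ I → IsUnit x) (s t : Multiset R) (hs : ∀ a ∈ s, a ∈ I)
    (ht : ∀ b ∈ t, b ∉ I) :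
    IsCoprime (s.map (fun a => (X - C a : R[X]))).prod (t.map (fun b => (X - C b : R[X]))).prod := by
  induction s using Multiset.induction_on with
  | empty => simpa using isCoprime_one_left
  | cons a s ih =>
    rw [Multiset.map_cons, Multiset.prod_cons]
    exact IsCoprime.mul_left (IDB_cop1 I hI a (hs a (Multiset.mem_cons_self a s)) t ht)
      (ih fun c hc => hs c (Multiset.mem_cons_of_mem hc))

open Polynomial in
theorem IDB_pow (s : Multiset R) (hs : ∀ a ∈ s, a ∈ I) :
    (X ^ (Multiset.card s) - (s.map (fun a => (X - C a : R[X]))).prod) ∈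
      Ideal.map (C : R →+* R[X]) I := by
  induction s using Multiset.induction_on with
  | empty => simp
  | cons a s ih =>
    rw [Multiset.map_cons, Multiset.prod_cons, Multiset.card_cons]
    have h1 := ih fun c hc => hs c (Multiset.mem_cons_of_mem hc)
    have h2 : (C a : R[X]) ∈ Ideal.map (C : R →+* R[X]) I :=
      Ideal.mem_map_of_mem _ (hs a (Multiset.mem_cons_self a s))
    have e : (X ^ (Multiset.card s + 1) - (X - C a) * (s.map (fun a => (X - C a : R[X]))).prod)
        = X * (X ^ (Multiset.card s) - (s.map (fun a => (X - C a : R[X]))).prod) +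
          (s.map (fun a => (X - C a : R[X]))).prod * C a := by ring
    rw [e]
    exact Ideal.add_mem _ (Ideal.mul_mem_left _ _ h1) (Ideal.mul_mem_left _ _ h2)

open Polynomial in
theorem IDB_main (hI : ∀ x : R, x ∉ I → IsUnit x) (s : Multiset R) :
    ∃ e q : R[X], e.coeff 0 = 0 ∧
      e * (1 - e) = q * (s.map (fun a => (X - C a : R[X]))).prod ∧
      ∃ N₀ : ℕ, ∀ N ≥ N₀, ∃ q' r : R[X],
        X ^ N * (1 - e) = q' * (s.map (fun a => (X - C a : R[X]))).prod + r ∧
          ∀ k, r.coeff k ∈ I := by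
  classical
  set s₀ := s.filter (fun a => a ∈ I) with hs0
  set s₁ := s.filter (fun a => ¬ a ∈ I) with hs1
  have hsum : s₀ + s₁ = s := Multiset.filter_add_not _ s
  set F₀ := (s₀.map (fun a => (X - C a : R[X]))).prod with hF0
  set F₁ := (s₁.map (fun a => (X - C a : R[X]))).prod with hF1
  have hF : (s.map (fun a => (X - C a : R[X]))).prod = F₀ * F₁ := by
    rw [← hsum, Multiset.map_add, Multiset.prod_add]
  have h0 : ∀ a ∈ s₀, a ∈ I := fun a ha => (Multiset.mem_filter.1 ha).2
  have h1 : ∀ a ∈ s₁, a ∉ I := fun a ha => (Multiset.mem_filter.1 ha).2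
  have hc : IsCoprime (X * F₀) F₁ := by
    have := IDB_cop I hI (0 ::ₘ s₀) s₁ (by
      intro a ha
      rcases Multiset.mem_cons.1 ha with rfl | ha
      · exact I.zero_mem
      · exact h0 a ha) h1
    rw [Multiset.map_cons, Multiset.prod_cons] at this
    simpa using this
  obtain ⟨U, V, hUV⟩ := hc
  have he : 1 - U * (X * F₀) = V * F₁ := by rw [← hUV]; ring
  refine ⟨U * (X * F₀), U * X * V, ?_, ?_, Multiset.card s₀, ?_⟩
  · have : U * (X * F₀) = X * (U * F₀) := by ring
    rw [this, Polynomial.mul_coeff_zero]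
    simp
  · rw [he, hF]; ring
  · intro N hN
    obtain ⟨j, rfl⟩ := Nat.exists_eq_add_of_le hN
    refine ⟨X ^ j * V, X ^ j * V * F₁ * (X ^ (Multiset.card s₀) - F₀), ?_, ?_⟩
    · rw [he, hF]; ring
    · intro k
      exact Ideal.mem_map_C_iff.1 (Ideal.mul_mem_left _ _ (IDB_pow I s₀ h0)) k

end IDB_alg

/-- The local ring as a subring of `ℂ`. -/
def IDB_ring {p : ℕ} {M : Ideal (integralClosure ℤ ℂ)} (hS : Setup p M) : Subring ℂ where
  carrier := {z | IntAt M z}
  mul_mem' := fun ha hb => IntAt.mul hS ha hb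
  one_mem' := IntAt.one hS
  add_mem' := fun ha hb => IntAt.add hS ha hb
  zero_mem' := IntAt.zero hS
  neg_mem' := fun ha => IntAt.neg ha

/-- Its maximal ideal. -/
def IDB_ideal {p : ℕ} {M : Ideal (integralClosure ℤ ℂ)} (hS : Setup p M) : Ideal (IDB_ring hS) where
  carrier := {z | InM M (z : ℂ)}
  add_mem' := fun ha hb => InM.add hS ha hb
  zero_mem' := InM.zero hS
  smul_mem' := fun c _ hx => InM.mul_left hS c.2 hx

theorem IDB_unit {p : ℕ} {M : Ideal (integralClosure ℤ ℂ)} (hS : Setup p M)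
    (x : IDB_ring hS) (hx : x ∉ IDB_ideal hS) : IsUnit x := by
  have hm : ¬ InM M (x : ℂ) := hx
  have h0 : (x : ℂ) ≠ 0 := fun h0 => hm (h0 ▸ InM.zero hS)
  refine IsUnit.of_mul_eq_one (⟨(x : ℂ)⁻¹, IntAt.inv hS x.2 hm⟩ : IDB_ring hS) ?_
  apply Subtype.ext
  change (x : ℂ) * (x : ℂ)⁻¹ = 1
  exact mul_inv_cancel₀ h0

open Polynomial in
theorem IDB (hIDR : IDR_stmt) : IDB_stmt := by
  intro p M hS F hF hc
  classical
  have hroots : ∀ z ∈ F.roots, z ∈ IDB_ring hS := by
    intro z hz
    exact hIDR p M hS F hF hc z (Polynomial.isRoot_of_mem_roots hz)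
  obtain ⟨s, hs⟩ : ∃ s : Multiset (IDB_ring hS), s.map (fun x : IDB_ring hS => (x : ℂ)) = F.roots := by
    refine ⟨F.roots.attach.map (fun x => (⟨x.1, hroots x.1 x.2⟩ : IDB_ring hS)), ?_⟩
    rw [Multiset.map_map]
    exact Multiset.attach_map_val _
  have hsp : F = (F.roots.map (fun a => (X - C a : ℂ[X]))).prod :=
    Polynomial.Splits.eq_prod_roots_of_monic (IsAlgClosed.splits F) hF
  set φ : (IDB_ring hS)[X] →+* ℂ[X] := Polynomial.mapRingHom (IDB_ring hS).subtype with hφ
  have hFφ : φ (s.map (fun a => (X - C a : (IDB_ring hS)[X]))).prod = F := by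
    rw [map_multiset_prod, Multiset.map_map]
    conv_rhs => rw [hsp, ← hs, Multiset.map_map]
    congr 1
    apply Multiset.map_congr rfl
    intro a _
    simp [hφ]
  obtain ⟨e, q, h0, h1, N₀, h2⟩ := IDB_main (IDB_ideal hS) (IDB_unit hS) s
  refine ⟨φ e, φ q, ?_, ?_, ?_, N₀, ?_⟩
  · rw [hφ, Polynomial.coe_mapRingHom, Polynomial.coeff_map, h0, map_zero]
  · intro k
    rw [hφ, Polynomial.coe_mapRingHom, Polynomial.coeff_map]
    exact (e.coeff k).2
  · have := congrArg φ h1
    rw [map_mul, map_mul, map_sub, map_one, hFφ] at this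
    exact this
  · intro N hN
    obtain ⟨q', r, h3, h4⟩ := h2 N hN
    refine ⟨φ q', φ r, ?_, ?_⟩
    · have := congrArg φ h3
      rw [map_mul, map_add, map_mul, map_sub, map_one, hFφ, map_pow] at this
      have hX : φ X = X := by rw [hφ]; simp
      rw [hX] at this
      exact this
    · intro k
      rw [hφ, Polynomial.coe_mapRingHom, Polynomial.coeff_map]
      exact h4 k

end Pool.Agent.FI
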