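import Pool.Agent.helper83.FI.SpecR

set_option autoImplicit false

/-!
# Project fi (MP_baa4d7_al), block R, row IDR
-/

namespace Pool.Agent.FI

open Pool.Agent.helper58.DC Pool.Agent.DI Pool.Agent.GR Pool.Agent.OB

open Polynomial in
theorem IDR_lift (Q : ℂ[X]) (hQ : Q.Monic) (hc : ∀ k, IsIntegral ℤ (Q.coeff k)) (w : ℂ)
    (hw : Q.eval w = 0) : IsIntegral ℤ w := by
  have h1 : Q ∈ Polynomial.lifts (algebraMap (integralClosure ℤ ℂ) ℂ) := by
    rw [Polynomial.lifts_iff_coeff_lifts]
    intro n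
    exact ⟨⟨Q.coeff n, hc n⟩, rfl⟩
  obtain ⟨q, hq1, _, hq3⟩ := Polynomial.lifts_and_natDegree_eq_and_monic h1 hQ
  have h2 : IsIntegral (integralClosure ℤ ℂ) w := by
    refine ⟨q, hq3, ?_⟩
    rw [← Polynomial.eval_map, hq1, hw]
  exact isIntegral_trans w h2

theorem IDR : IDR_stmt := by
  intro p M hS F hF hc z hz
  obtain ⟨b, hb, hbi⟩ := IntAt.common hS (Finset.range (F.natDegree + 1))
    (f := fun k => F.coeff k) (fun k _ => hc k)
  have hb0 : (b : ℂ) ≠ 0 := hS.ne_zero hb
  have hm : (F.scaleRoots (b : ℂ)).Monic := (Polynomial.monic_scaleRoots_iff _).2 hF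
  have hco : ∀ k, IsIntegral ℤ ((F.scaleRoots (b : ℂ)).coeff k) := by
    intro k
    rw [Polynomial.coeff_scaleRoots]
    by_cases hk : k < F.natDegree
    · have h1 : F.natDegree - k = (F.natDegree - k - 1) + 1 := by omega
      rw [h1, pow_succ', ← mul_assoc]
      exact (hbi k (Finset.mem_range.2 (by omega))).mul (b.2.pow _)
    · rcases (not_lt.1 hk).eq_or_lt with h | h
      · rw [← h, Nat.sub_self, pow_zero, mul_one]
        have : F.coeff F.natDegree = 1 := hF
        rw [this]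
        exact isIntegral_one
      · rw [Polynomial.coeff_eq_zero_of_natDegree_lt h, zero_mul]
        exact isIntegral_zero
  have hr : (F.scaleRoots (b : ℂ)).eval ((b : ℂ) * z) = 0 := by
    have := Polynomial.scaleRoots_eval₂_eq_zero (p := F) (RingHom.id ℂ) (r := z) (s := (b : ℂ))
      (by rw [Polynomial.eval₂_id]; exact hz)
    rw [Polynomial.eval₂_id] at this
    simpa using this
  have hi := IDR_lift _ hm hco _ hr
  exact ⟨⟨(b : ℂ) * z, hi⟩, b, hb, mul_comm _ _⟩

end Pool.Agent.FI
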