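import Pool.Agent.helper1.FI.SpecQ2

set_option autoImplicit false

/-!
# Project fi (MP_baa4d7_al), block Q2, row QN2
-/

namespace Pool.Agent.FI

open Pool.Agent.helper58.DC Pool.Agent.DI Pool.Agent.GR Pool.Agent.OB

theorem QN2 (hHTI : HTI_stmt) (hHTZ : HTZ_stmt) (hTRP : TRP_stmt) : QN2_stmt := by
  intro p M hS G _ _ D x θ χ hLo P hP u hu hG j hj hinv hcv hcen
  have hR : Rt p M D x θ χ := hLo.rt
  have hz : Subgroup.zpowers u ≤ D := by
    rw [Subgroup.zpowers_le]; exact hu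
  have hP' : P ⊔ Subgroup.zpowers u ≤ D := sup_le hP hz
  have hK : cz (P ⊔ Subgroup.zpowers u) = Cz (cz P) u := cz_sup_zpowers P u
  have hCK : cz D ≤ Cz (cz P) u := by rw [← hK]; exact cz_mono hP'
  have hne : (Bl M (Cz (cz P) u) θ).Nonempty := by
    rw [Set.nonempty_iff_ne_empty]
    intro h
    have h1 := hG.card
    rw [h, Set.ncard_empty] at h1
    exact Nat.card_pos.ne h1
  obtain ⟨ψ₀, hψ₀⟩ := hne
  obtain ⟨N, d, hN, hd, h1, h2, h3⟩ := hHTI p M hS G D x θ χ hR _ hCK j hj hinv hcv hcen ψ₀ hψ₀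
  obtain ⟨a, ha⟩ : ∃ a : ℕ, Nat.card D = p ^ a := by
    have : Fact p.Prime := ⟨hS.pr⟩
    exact (IsPGroup.iff_card).1 hR.dfa.pgrp
  obtain ⟨n, hn1, hn2⟩ := hHTZ p M hS G D x θ χ hLo _ hP' (by rw [hK]; exact hG) ψ₀
    (by rw [hK]; exact hψ₀) a ha
  have hnd : n = d := by
    have : (n : ℂ) = (d : ℂ) := by rw [← hn1, h1]
    exact_mod_cast this
  subst hnd
  have : Fact p.Prime := ⟨hS.pr⟩
  have hvD : padicValNat p (Nat.card D) = a := by rw [ha, padicValNat.prime_pow]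
  rw [hK] at hn2
  have hvN : padicValNat p N = 0 := by
    rw [hvD] at h3
    omega
  refine ⟨N, ?_, ?_⟩
  · intro hp
    rcases padicValNat.eq_zero_iff.1 hvN with h | h | h
    · exact hS.pr.ne_one h
    · exact hN h
    · exact h hp
  · intro ψ hψ
    rw [← h2]
    refine hTRP p M hS G _ j hj ψ ψ₀ ?_ ?_ ?_
    · intro l hl y
      exact IrrOn_conj hψ.1 hl y
    · intro l hl y
      exact IrrOn_conj hψ₀.1 hl y
    · intro v hv hr
      exact hG.reg ψ hψ ψ₀ hψ₀ v hv hr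

end Pool.Agent.FI
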